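import Pool.Agent.Helper32.PG.Stm

/-!
# P4 of the polynomial growth project: sums of the weights
-/

set_option autoImplicit false

namespace Pool.Agent.Helper36.PG

open Finset

open Pool.Agent.Helper32.PG

lemma dist_le (e : ℕ → ℕ) (n : ℕ) : dist e n ≤ n := Nat.findGreatest_le n

lemma dist_spec (e : ℕ → ℕ) (n : ℕ) : e (n - dist e n) = e (n + dist e n) :=
  Nat.findGreatest_spec (P := fun k => e (n - k) = e (n + k)) (Nat.zero_le n) rfl

lemma le_dist {e : ℕ → ℕ} {n k : ℕ} (hk : k ≤ n) (h : e (n - k) = e (n + k)) : k ≤ dist e n :=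
  Nat.le_findGreatest (P := fun k => e (n - k) = e (n + k)) hk h

lemma dist_const {e : ℕ → ℕ} (he : Monotone e) {n i : ℕ} (h1 : n ≤ i + dist e n)
    (h2 : i ≤ n + dist e n) : e i = e (n - dist e n) := by
  have h3 := dist_spec e n
  have h4 : e (n - dist e n) ≤ e i := he (by omega)
  have h5 : e i ≤ e (n + dist e n) := he h2
  omega

lemma dist_const' {e : ℕ → ℕ} (he : Monotone e) {n i : ℕ} (h1 : n ≤ i + dist e n)
    (h2 : i ≤ n + dist e n) : e i = e n := by
  rw [dist_const he h1 h2, ← dist_const he (n := n) (i := n) (by omega) (by omega)]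

/-- sum of powers with distinct exponents -/
lemma sum_pow_inj {r : ℝ} (h0 : 0 < r) (h1 : r < 1) (s : Finset ℕ) (f : ℕ → ℕ)
    (hf : Set.InjOn f s) : ∑ n ∈ s, r ^ f n ≤ 1 / (1 - r) := by
  classical
  rw [← Finset.sum_image (g := f) (f := fun k => r ^ k) hf]
  rw [one_div, ← tsum_geometric_of_lt_one h0.le h1]
  exact (summable_geometric_of_lt_one h0.le h1).sum_le_tsum _ (fun i _ => by positivity)

lemma sum_near {r : ℝ} (h0 : 0 < r) (h1 : r < 1) (N t : ℕ) :
    ∑ n ∈ range N, r ^ ((n - t) + (t - n)) ≤ 2 / (1 - r) := by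
  rw [← Finset.sum_filter_add_sum_filter_not (range N) (fun n => n < t)]
  have e1 : ∑ n ∈ (range N).filter (fun n => n < t), r ^ ((n - t) + (t - n)) ≤ 1 / (1 - r) := by
    apply sum_pow_inj h0 h1
    intro a ha b hb hab
    rw [mem_coe, mem_filter] at ha hb
    dsimp only at hab
    omega
  have e2 : ∑ n ∈ (range N).filter (fun n => ¬ n < t), r ^ ((n - t) + (t - n)) ≤ 1 / (1 - r) := by
    apply sum_pow_inj h0 h1
    intro a ha b hb hab
    rw [mem_coe, mem_filter] at ha hb
    dsimp only at hab
    omega
  have e3 : 2 / (1 - r) = 1 / (1 - r) + 1 / (1 - r) := by ring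
  rw [e3]
  exact add_le_add e1 e2

/-- the number of changes -/
lemma card_changes {e : ℕ → ℕ} (h0 : e 0 = 0) (hs : ∀ n, e (n + 1) = e n ∨ e (n + 1) = e n + 1)
    (M : ℕ) : #((range M).filter fun t => e (t + 1) ≠ e t) = e M := by
  induction M with
  | zero => simp [h0]
  | succ M ih =>
    rw [Finset.range_add_one, Finset.filter_insert]
    split_ifs with h
    · rw [Finset.card_insert_of_notMem (by simp), ih]
      rcases hs M with h1 | h1
      · exact absurd h1 h
      · omega
    · rw [ih]; push Not at h; exact h.symm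

/-- a change between two points with different values -/
lemma exists_change {e : ℕ → ℕ} {a b : ℕ} (hab : a ≤ b) (h : e a ≠ e b) :
    ∃ t, a ≤ t ∧ t < b ∧ e (t + 1) ≠ e t := by
  by_contra hcon
  push Not at hcon
  apply h
  have key : ∀ k, a + k ≤ b → e (a + k) = e a := by
    intro k
    induction k with
    | zero => intro _; rfl
    | succ k ih =>
      intro hk
      rw [← add_assoc, hcon (a + k) (by omega) (by omega), ih (by omega)]
  have := key (b - a) (by omega)
  rw [show a + (b - a) = b by omega] at this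
  exact this.symm

/-- the bound for one weight -/
lemma weight_le {r : ℝ} (h0 : 0 < r) (h1 : r < 1) {e : ℕ → ℕ} {n N : ℕ} (hn : n < N) :
    r ^ dist e n ≤ r ^ n + r⁻¹ * ∑ t ∈ (range (2 * N)).filter (fun t => e (t + 1) ≠ e t),
      r ^ ((n - t) + (t - n)) := by
  have hsum : ∀ t ∈ (range (2 * N)).filter (fun t => e (t + 1) ≠ e t), 0 ≤ r ^ ((n - t) + (t - n)) :=
    fun t _ => by positivity
  rcases eq_or_lt_of_le (dist_le e n) with hd | hd
  · have : 0 ≤ r⁻¹ * ∑ t ∈ (range (2 * N)).filter (fun t => e (t + 1) ≠ e t),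
      r ^ ((n - t) + (t - n)) := mul_nonneg (by positivity) (Finset.sum_nonneg hsum)
    rw [hd]
    linarith
  · set k := dist e n + 1 with hk
    have hne : e (n - k) ≠ e (n + k) := by
      intro h
      have := le_dist (e := e) (n := n) (k := k) (by omega) h
      omega
    obtain ⟨t, ht1, ht2, ht3⟩ := exists_change (by omega : n - k ≤ n + k) hne
    have h2 : r ^ ((n - t) + (t - n)) ≤
        ∑ t ∈ (range (2 * N)).filter (fun t => e (t + 1) ≠ e t), r ^ ((n - t) + (t - n)) := by
      apply Finset.single_le_sum hsum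
      rw [mem_filter, mem_range]
      exact ⟨by omega, ht3⟩
    have h3 : r ^ k ≤ r ^ ((n - t) + (t - n)) := pow_le_pow_of_le_one h0.le h1.le (by omega)
    have h4 : r ^ dist e n = r⁻¹ * r ^ k := by
      rw [hk, pow_succ]
      field_simp
    rw [h4]
    have h5 : r⁻¹ * r ^ k ≤ r⁻¹ * ∑ t ∈ (range (2 * N)).filter (fun t => e (t + 1) ≠ e t),
        r ^ ((n - t) + (t - n)) := by
      apply mul_le_mul_of_nonneg_left (h3.trans h2) (by positivity)
    have h6 : 0 ≤ r ^ n := by positivity
    linarith

theorem sum_weights : S_Sum := by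
  intro r hr0 hr1 e j C0 he0 hs hC
  have he : Monotone e := monotone_nat_of_le_succ fun n => by
    rcases hs n with h | h <;> omega
  refine ⟨?_, ?_, dist_le e, fun n i h1 h2 => dist_const' he h1 h2, ?_⟩
  · intro n
    rcases Nat.eq_zero_or_pos (dist e n) with h | h
    · omega
    · have hle := dist_le e n
      have h1 : dist e n - 1 ≤ dist e (n + 1) := by
        apply le_dist (by omega)
        rw [dist_const he (n := n) (i := n + 1 - (dist e n - 1)) (by omega) (by omega),
          dist_const he (n := n) (i := n + 1 + (dist e n - 1)) (by omega) (by omega)]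
      omega
  · intro n
    rcases Nat.eq_zero_or_pos (dist e (n + 1)) with h | h
    · omega
    · have hle := dist_le e (n + 1)
      have h1 : dist e (n + 1) - 1 ≤ dist e n := by
        apply le_dist (by omega)
        rw [dist_const he (n := n + 1) (i := n - (dist e (n + 1) - 1)) (by omega) (by omega),
          dist_const he (n := n + 1) (i := n + (dist e (n + 1) - 1)) (by omega) (by omega)]
      omega
  · have hC1 : 1 ≤ C0 := by
      have := hC 0
      rw [he0] at this
      simpa using this
    have hlC : 0 ≤ Real.log C0 := Real.log_nonneg hC1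
    have hl2 : 0 < Real.log 2 := Real.log_pos (by norm_num)
    have hr : 0 < 1 - r := by linarith
    set A1 : ℝ := (Real.log C0 + j) / Real.log 2 with hA1
    have hA1' : 0 ≤ A1 := by positivity
    refine ⟨1 / (1 - r) + r⁻¹ * (A1 * (2 / (1 - r))), ?_⟩
    intro N
    have hN : (0 : ℝ) ≤ N := Nat.cast_nonneg _
    have hlN : 0 ≤ Real.log ((N : ℝ) + 1) := Real.log_nonneg (by linarith)
    -- the number of changes
    have he2 : (e (2 * N) : ℝ) ≤ A1 * (1 + Real.log ((N : ℝ) + 1)) := by
      have h1 := Real.log_le_log (by positivity) (hC (2 * N))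
      rw [Real.log_pow, Real.log_mul (by linarith) (by positivity), Real.log_pow] at h1
      have h2 : Real.log (((2 * N : ℕ) : ℝ) + 1) ≤ 1 + Real.log ((N : ℝ) + 1) := by
        calc Real.log (((2 * N : ℕ) : ℝ) + 1) ≤ Real.log (2 * ((N : ℝ) + 1)) := by
              apply Real.log_le_log (by positivity)
              push_cast; linarith
          _ = Real.log 2 + Real.log ((N : ℝ) + 1) :=
              Real.log_mul (by norm_num) (by positivity)
          _ ≤ 1 + Real.log ((N : ℝ) + 1) := by
              have := Real.log_two_lt_d9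
              linarith
      have h3 : (j : ℝ) * Real.log (((2 * N : ℕ) : ℝ) + 1) ≤ j * (1 + Real.log ((N : ℝ) + 1)) := by
        gcongr
      rw [hA1, div_mul_eq_mul_div, le_div_iff₀ hl2]
      nlinarith
    calc ∑ n ∈ range N, r ^ dist e n
        ≤ ∑ n ∈ range N, (r ^ n + r⁻¹ * ∑ t ∈ (range (2 * N)).filter (fun t => e (t + 1) ≠ e t),
            r ^ ((n - t) + (t - n))) :=
          Finset.sum_le_sum fun n hn => weight_le hr0 hr1 (mem_range.mp hn)
      _ = ∑ n ∈ range N, r ^ n + r⁻¹ * ∑ t ∈ (range (2 * N)).filter (fun t => e (t + 1) ≠ e t),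
            ∑ n ∈ range N, r ^ ((n - t) + (t - n)) := by
          rw [Finset.sum_add_distrib, ← Finset.mul_sum, Finset.sum_comm]
      _ ≤ 1 / (1 - r) + r⁻¹ * ∑ t ∈ (range (2 * N)).filter (fun t => e (t + 1) ≠ e t),
            2 / (1 - r) := by
          gcongr with t _
          · exact sum_pow_inj hr0 hr1 (range N) id Function.injective_id.injOn
          · exact sum_near hr0 hr1 N t
      _ = 1 / (1 - r) + r⁻¹ * (e (2 * N) * (2 / (1 - r))) := by
          rw [Finset.sum_const, nsmul_eq_mul, card_changes he0 hs]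
      _ ≤ 1 / (1 - r) * (1 + Real.log ((N : ℝ) + 1)) +
            r⁻¹ * (A1 * (1 + Real.log ((N : ℝ) + 1)) * (2 / (1 - r))) := by
          apply add_le_add
          · apply le_mul_of_one_le_right (by positivity); linarith
          · gcongr
      _ = _ := by ring

end Pool.Agent.Helper36.PG
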